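import Mathlib

/-!
Chains (rows increasing, columns decreasing) in a set of cells, and the rank functions of
0-Hecke (Demazure) products.  The main result `has_dem` identifies the longest chain inside a
box with the rank function of the Demazure product of the word of the missing cells.
-/

namespace Pool.Agent.X7.Jsat

/-- The first `t` terms form a chain: rows increase, columns decrease. -/
def IsCh (t : ℕ) (a b : ℕ → ℕ) : Prop :=
  ∀ k, k + 1 < t → a k < a (k + 1) ∧ b (k + 1) < b k

/-- `S` has a chain of `t` cells inside the box `[0,p) × [0,q)`. -/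
def Has (S : ℕ → ℕ → Prop) (p q t : ℕ) : Prop :=
  ∃ a b : ℕ → ℕ, IsCh t a b ∧ ∀ k, k < t → S (a k) (b k) ∧ a k < p ∧ b k < q

theorem IsCh.gap {t : ℕ} {a b : ℕ → ℕ} (h : IsCh t a b) (k d : ℕ) (hd : k + d < t) :
    a k + d ≤ a (k + d) ∧ b (k + d) + d ≤ b k := by
  induction d with
  | zero => simp
  | succ d ih =>
    have h1 := ih (by omega)
    have h2 := h (k + d) (by omega)
    have e : k + (d + 1) = k + d + 1 := by ring
    rw [e]
    omega

theorem IsCh.mono {t t' : ℕ} {a b : ℕ → ℕ} (h : IsCh t a b) (ht : t' ≤ t) : IsCh t' a b :=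
  fun k hk => h k (by omega)

theorem Has.mono {S S' : ℕ → ℕ → Prop} {p q t p' q' t' : ℕ} (h : Has S p q t)
    (hp : p ≤ p') (hq : q ≤ q') (ht : t' ≤ t)
    (hS : ∀ x y, x < p → y < q → S x y → S' x y) : Has S' p' q' t' := by
  obtain ⟨a, b, h1, h2⟩ := h
  refine ⟨a, b, h1.mono ht, fun k hk => ?_⟩
  obtain ⟨h3, h4, h5⟩ := h2 k (by omega)
  exact ⟨hS _ _ h4 h5 h3, by omega, by omega⟩

theorem Has.le {S : ℕ → ℕ → Prop} {p q t : ℕ} (h : Has S p q t) : t ≤ p ∧ t ≤ q := by
  obtain ⟨a, b, h1, h2⟩ := h
  rcases Nat.eq_zero_or_pos t with h0 | h0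
  · omega
  · obtain ⟨-, h4, -⟩ := h2 (t - 1) (by omega)
    obtain ⟨-, -, h5⟩ := h2 0 (by omega)
    have h6 := h1.gap 0 (t - 1) (by omega)
    rw [Nat.zero_add] at h6
    omega

theorem glue {S : ℕ → ℕ → Prop} {p q : ℕ} {a b : ℕ → ℕ} {k0 t' r0 : ℕ}
    (h : IsCh k0 a b) (hin : ∀ k, k < k0 → S (a k) (b k) ∧ a k < p ∧ b k < q)
    (hrow : ∀ k, k < k0 → a k < r0) (hcol : ∀ k, k < k0 → t' ≤ b k)
    (hp : 0 < t' → r0 + t' ≤ p) (hq : t' ≤ q)
    (hS : ∀ e, e < t' → S (r0 + e) (t' - 1 - e)) : Has S p q (k0 + t') := by
  refine ⟨fun k => if k < k0 then a k else r0 + (k - k0),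
    fun k => if k < k0 then b k else t' - 1 - (k - k0), ?_, ?_⟩
  · intro k hk
    rcases Nat.lt_trichotomy (k + 1) k0 with h1 | h1 | h1
    · have h2 := h k h1
      have h3 : k < k0 := by omega
      simp only [h1, h3, if_true]
      exact h2
    · have h3 : k < k0 := by omega
      have h4 : ¬ (k + 1 < k0) := by omega
      have h5 := hrow k h3
      have h6 := hcol k h3
      simp only [h3, h4, if_true, if_false]
      omega
    · have h3 : ¬ (k < k0) := by omega
      have h4 : ¬ (k + 1 < k0) := by omega
      simp only [h3, h4, if_false]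
      omega
  · intro k hk
    by_cases h3 : k < k0
    · simp only [h3, if_true]
      exact hin k h3
    · simp only [h3, if_false]
      refine ⟨hS (k - k0) (by omega), ?_, ?_⟩
      · have := hp (by omega)
        omega
      · omega

/-- Demazure step: exchange the values at positions `i, i+1` if they are increasing. -/
def step (u : ℕ → ℕ) (i : ℕ) : ℕ → ℕ :=
  if u i < u (i + 1) then u ∘ Equiv.swap i (i + 1) else u

/-- The rank function. -/
def rk (u : ℕ → ℕ) (p q : ℕ) : ℕ := ((Finset.range p).filter (fun i => u i < q)).card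

theorem rk_zero (u : ℕ → ℕ) (q : ℕ) : rk u 0 q = 0 := by simp [rk]

theorem rk_succ (u : ℕ → ℕ) (p q : ℕ) :
    rk u (p + 1) q = rk u p q + if u p < q then 1 else 0 := by
  unfold rk
  rw [Finset.range_add_one, Finset.filter_insert]
  split_ifs with h
  · rw [Finset.card_insert_of_notMem (by simp)]
  · rfl

theorem rk_swap_le (u : ℕ → ℕ) (i q : ℕ) : ∀ p, p ≤ i →
    rk (u ∘ Equiv.swap i (i + 1)) p q = rk u p q := by
  intro p
  induction p with
  | zero => intro _; simp [rk]
  | succ p ih =>
    intro hp
    rw [rk_succ, rk_succ, ih (by omega)]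
    have : (u ∘ Equiv.swap i (i + 1)) p = u p := by
      simp only [Function.comp]
      rw [Equiv.swap_apply_of_ne_of_ne (by omega) (by omega)]
    rw [this]

theorem rk_swap_mid (u : ℕ → ℕ) (i q : ℕ) :
    rk (u ∘ Equiv.swap i (i + 1)) (i + 1) q = rk u i q + if u (i + 1) < q then 1 else 0 := by
  rw [rk_succ, rk_swap_le u i q i le_rfl]
  simp [Function.comp]

theorem rk_swap_ge (u : ℕ → ℕ) (i q : ℕ) : ∀ d,
    rk (u ∘ Equiv.swap i (i + 1)) (i + 2 + d) q = rk u (i + 2 + d) q := by
  intro d
  induction d with
  | zero =>
    show rk (u ∘ Equiv.swap i (i + 1)) (i + 1 + 1) q = rk u (i + 1 + 1) q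
    rw [rk_succ, rk_swap_mid, rk_succ, rk_succ]
    have : (u ∘ Equiv.swap i (i + 1)) (i + 1) = u i := by simp [Function.comp]
    rw [this]
    ring
  | succ d ih =>
    have e : i + 2 + (d + 1) = i + 2 + d + 1 := by ring
    rw [e, rk_succ, rk_succ, ih]
    have : (u ∘ Equiv.swap i (i + 1)) (i + 2 + d) = u (i + 2 + d) := by
      simp only [Function.comp]
      rw [Equiv.swap_apply_of_ne_of_ne (by omega) (by omega)]
    rw [this]

theorem rk_swap_ne (u : ℕ → ℕ) (i q p : ℕ) (hp : p ≠ i + 1) :
    rk (u ∘ Equiv.swap i (i + 1)) p q = rk u p q := by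
  rcases Nat.lt_or_ge p (i + 1) with h | h
  · exact rk_swap_le u i q p (by omega)
  · have := rk_swap_ge u i q (p - (i + 2))
    have e : i + 2 + (p - (i + 2)) = p := by omega
    rw [e] at this
    exact this

theorem rk_step_ne (u : ℕ → ℕ) (i q p : ℕ) (hp : p ≠ i + 1) :
    rk (step u i) p q = rk u p q := by
  unfold step
  split_ifs with h
  · exact rk_swap_ne u i q p hp
  · rfl

theorem rk_step_mid (u : ℕ → ℕ) (i q : ℕ) :
    rk (step u i) (i + 1) q = max (rk u i q) (rk u (i + 2) q - 1) := by
  have e : rk u (i + 2) q = rk u (i + 1) q + if u (i + 1) < q then 1 else 0 := rk_succ u (i + 1) q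
  have e2 := rk_succ u i q
  unfold step
  split_ifs with h
  · rw [rk_swap_mid, e, e2]
    split_ifs <;> omega
  · rw [e, e2]
    split_ifs <;> omega

/-- Splitting a chain at a row. -/
theorem split_row {t : ℕ} {a b : ℕ → ℕ} (h : IsCh t a b) (i : ℕ) :
    ∃ k0, k0 ≤ t ∧ (∀ k, k < k0 → a k < i) ∧ (∀ k, k0 ≤ k → k < t → i ≤ a k) := by
  by_cases hex : ∃ k, k < t ∧ i ≤ a k
  · classical
    obtain ⟨h1, h2⟩ := Nat.find_spec hex
    refine ⟨Nat.find hex, h1.le, fun k hk => ?_, fun k hk hkt => ?_⟩
    · have h3 := Nat.find_min hex hk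
      by_contra h4
      exact h3 ⟨by omega, by omega⟩
    · have h3 := h.gap (Nat.find hex) (k - Nat.find hex) (by omega)
      have e : Nat.find hex + (k - Nat.find hex) = k := by omega
      rw [e] at h3
      omega
  · push Not at hex
    exact ⟨t, le_rfl, fun k hk => hex k hk, fun k hk hkt => by omega⟩

theorem has_step {S : ℕ → ℕ → Prop} {u : ℕ → ℕ} {i j : ℕ}
    (hlater : ∀ x y, (i < x ∨ (x = i ∧ y ≤ j)) → S x y)
    (hS : ∀ p q t, Has S p q t ↔ t ≤ rk u p q) :
    ∀ p q t, Has (fun x y => S x y ∧ ¬ (x = i ∧ y = j)) p q t ↔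
      t ≤ rk (step u (i + j)) p q := by
  -- easy direction away from the critical row
  have key : ∀ p q t, p ≠ i + j + 1 → Has S p q t →
      Has (fun x y => S x y ∧ ¬ (x = i ∧ y = j)) p q t := by
    intro p q t hp hH
    obtain ⟨a, b, h1, h2⟩ := hH
    by_cases hc : ∃ k, k < t ∧ a k = i ∧ b k = j
    · obtain ⟨k, hk, ha, hb⟩ := hc
      -- prefix: k cells, tail t - 1 - k cells
      obtain ⟨-, hkp, hkq⟩ := h2 k hk
      have htail : t - 1 - k ≤ j ∧ i + (t - 1 - k) < p := by
        have h3 := h1.gap k (t - 1 - k) (by omega)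
        have e : k + (t - 1 - k) = t - 1 := by omega
        rw [e] at h3
        obtain ⟨-, h4, -⟩ := h2 (t - 1) (by omega)
        omega
      have hpre : ∀ k', k' < k → a k' < i ∧ j < b k' := by
        intro k' hk'
        have h3 := h1.gap k' (k - k') (by omega)
        have e : k' + (k - k') = k := by omega
        rw [e] at h3
        omega
      have hin : ∀ k', k' < k → (S (a k') (b k') ∧ ¬ (a k' = i ∧ b k' = j)) ∧
          a k' < p ∧ b k' < q := by
        intro k' hk'
        obtain ⟨h3, h4, h5⟩ := h2 k' (by omega)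
        have h6 := hpre k' hk'
        exact ⟨⟨h3, by omega⟩, h4, h5⟩
      have e : t = k + (t - k) := by omega
      rcases Nat.lt_or_ge p (i + j + 1) with hlt | hge
      · rw [e]
        apply glue (r0 := i) (h1.mono (by omega)) hin (fun k' hk' => (hpre k' hk').1)
          (fun k' hk' => by have := hpre k' hk'; omega) (fun _ => by omega) (by omega)
        intro e' he'
        refine ⟨hlater _ _ (by omega), by omega⟩
      · rw [e]
        apply glue (r0 := i + 1) (h1.mono (by omega)) hin
          (fun k' hk' => by have := hpre k' hk'; omega)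
          (fun k' hk' => by have := hpre k' hk'; omega) (fun _ => by omega) (by omega)
        intro e' he'
        refine ⟨hlater _ _ (by omega), by omega⟩
    · push Not at hc
      refine ⟨a, b, h1, fun k hk => ?_⟩
      obtain ⟨h3, h4, h5⟩ := h2 k hk
      exact ⟨⟨h3, fun h6 => hc k hk h6.1 h6.2⟩, h4, h5⟩
  intro p q t
  by_cases hp : p = i + j + 1
  · subst hp
    have e1 : rk (step u (i + j)) (i + j + 1) q =
        max (rk u (i + j) q) (rk u (i + j + 2) q - 1) := rk_step_mid u (i + j) q
    rw [e1]
    constructor
    · intro hH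
      have hres : Has S (i + j) q t ∨ Has S (i + j + 2) q (t + 1) := by
        obtain ⟨a, b, h1, h2⟩ := hH
        obtain ⟨k0, hk0, hlt, hge⟩ := split_row h1 i
        -- does the chain contain a cell of row `i` to the right of `j`?
        have hin : ∀ k1, k1 ≤ t → ∀ k, k < k1 → S (a k) (b k) ∧ a k < i + j + 1 ∧ b k < q := by
          intro k1 hk1 k hk
          obtain ⟨h3, h4, h5⟩ := h2 k (by omega)
          exact ⟨h3.1, h4, h5⟩
        have hlast : ∀ k, k < t → a k + (t - 1 - k) < i + j + 1 ∧ t - 1 - k ≤ b k := by
          intro k hk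
          have h3 := h1.gap k (t - 1 - k) (by omega)
          have e : k + (t - 1 - k) = t - 1 := by omega
          rw [e] at h3
          obtain ⟨-, h4, -⟩ := h2 (t - 1) (by omega)
          omega
        by_cases hr : k0 < t ∧ a k0 = i ∧ j < b k0
        · right
          obtain ⟨hr1, hr2, hr3⟩ := hr
          have h5 := hlast k0 hr1
          have hpre : ∀ k, k < k0 + 1 → a k < i + 1 ∧ j < b k := by
            intro k hk
            have h3 := h1.gap k (k0 - k) (by omega)
            have e : k + (k0 - k) = k0 := by omega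
            rw [e] at h3
            omega
          have e : t + 1 = (k0 + 1) + (t - k0) := by omega
          rw [e]
          apply glue (r0 := i + 1) (h1.mono (by omega))
            (fun k hk => by
              obtain ⟨h6, h7, h8⟩ := hin t le_rfl k (by omega)
              exact ⟨h6, by omega, h8⟩)
            (fun k hk => (hpre k hk).1) (fun k hk => by have := hpre k hk; omega)
            (fun _ => by omega)
            (by obtain ⟨-, -, h8⟩ := hin t le_rfl k0 (by omega); omega)
          intro e' he'
          exact hlater _ _ (by omega)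
        · left
          -- tail of length `t - k0` is moved to the leftmost columns, starting in row `i`
          have htail : k0 < t → t - k0 ≤ j := by
            intro hk
            have h3 := hlast k0 hk
            have h4 := hge k0 le_rfl hk
            obtain ⟨⟨-, h5⟩, -, h6⟩ := h2 k0 hk
            by_contra hcon
            have h7 : a k0 = i := by omega
            have h8 : b k0 ≤ j := by
              by_contra h9
              exact hr ⟨hk, h7, by omega⟩
            have h9 : b k0 = j := by omega
            exact h5 ⟨h7, h9⟩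
          have hcol : ∀ k, k < k0 → t - k0 ≤ b k := by
            intro k hk
            rcases Nat.lt_or_ge k0 t with h3 | h3
            · have h4 := hlast k (by omega)
              omega
            · omega
          have e : t = k0 + (t - k0) := by omega
          rw [e]
          apply glue (r0 := i) (h1.mono hk0)
            (fun k hk => by
              obtain ⟨h6, h7, h8⟩ := hin t le_rfl k (by omega)
              have h9 := hlt k hk
              exact ⟨h6, by omega, h8⟩)
            hlt hcol (fun h0 => by have := htail (by omega); omega)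
            (by
              rcases Nat.lt_or_ge k0 t with h3 | h3
              · obtain ⟨-, -, h6⟩ := h2 k0 h3
                have h7 := hlast k0 h3
                omega
              · omega)
          intro e' he'
          have := htail (by omega)
          exact hlater _ _ (by omega)
      rcases hres with h | h
      · exact le_max_of_le_left ((hS _ _ _).1 h)
      · have := (hS _ _ _).1 h
        exact le_max_of_le_right (by omega)
    · intro ht
      rcases le_max_iff.1 ht with h | h
      · exact (key _ _ _ (by omega) ((hS (i + j) q t).2 h)).mono (by omega) le_rfl le_rfl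
          (fun x y _ _ hxy => hxy)
      · rcases Nat.eq_zero_or_pos t with h0 | h0
        · subst h0
          exact ⟨id, id, fun k hk => by omega, fun k hk => by omega⟩
        · have h3 := key _ _ _ (by omega) ((hS (i + j + 2) q (t + 1)).2 (by omega))
          obtain ⟨a, b, h4, h5⟩ := h3
          refine ⟨a, b, h4.mono (by omega), fun k hk => ?_⟩
          obtain ⟨h6, h7, h8⟩ := h5 k (by omega)
          obtain ⟨-, h9, -⟩ := h5 t (by omega)
          have h10 := h4.gap k (t - k) (by omega)
          have e : k + (t - k) = t := by omega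
          rw [e] at h10
          exact ⟨h6, by omega, h8⟩
  · rw [rk_step_ne u (i + j) q p hp, ← hS]
    constructor
    · intro h
      exact h.mono le_rfl le_rfl le_rfl (fun x y _ _ hxy => hxy.1)
    · exact key p q t hp

/-- Demazure product of a list of cells; the letter of the cell `(i,j)` is `i+j`. -/
def dem (l : List (ℕ × ℕ)) : ℕ → ℕ := l.foldl (fun u c => step u (c.1 + c.2)) id

theorem dem_append (l : List (ℕ × ℕ)) (c : ℕ × ℕ) :
    dem (l ++ [c]) = step (dem l) (c.1 + c.2) := by
  simp [dem, List.foldl_append]

/-- Reading order. -/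
def before (x y : ℕ × ℕ) : Prop := x.1 < y.1 ∨ (x.1 = y.1 ∧ y.2 < x.2)

theorem rk_id (p q : ℕ) : rk id p q = min p q := by
  induction p with
  | zero => simp [rk]
  | succ p ih =>
    rw [rk_succ, ih]
    simp only [id]
    split_ifs <;> omega

theorem has_dem (l : List (ℕ × ℕ)) (hl : l.Pairwise before) :
    ∀ p q t, Has (fun x y => (x, y) ∉ l) p q t ↔ t ≤ rk (dem l) p q := by
  induction l using List.reverseRecOn with
  | nil =>
    intro p q t
    have e : dem [] = id := rfl
    rw [e, rk_id]
    constructor
    · intro h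
      have := h.le
      omega
    · intro h
      have := @glue (fun x y => (x, y) ∉ ([] : List (ℕ × ℕ))) p q id id 0 t 0
        (fun k hk => by omega) (fun k hk => by omega) (fun k hk => by omega)
        (fun k hk => by omega) (fun _ => by omega) (by omega) (fun e he => by simp)
      simpa using this
  | append_singleton l c ih =>
    rw [List.pairwise_append] at hl
    obtain ⟨hl1, -, hl2⟩ := hl
    intro p q t
    rw [dem_append]
    have hlater : ∀ x y, (c.1 < x ∨ (x = c.1 ∧ y ≤ c.2)) → (x, y) ∉ l := by
      intro x y hxy hmem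
      have := hl2 _ hmem c (by simp)
      unfold before at this
      simp only at this
      omega
    have := has_step (i := c.1) (j := c.2) hlater (ih hl1) p q t
    rw [← this]
    have e : (fun x y => (x, y) ∉ l ++ [c]) =
        (fun x y => (x, y) ∉ l ∧ ¬ (x = c.1 ∧ y = c.2)) := by
      funext x y
      simp only [List.mem_append, List.mem_singleton, not_or, eq_iff_iff]
      constructor
      · rintro ⟨h1, h2⟩
        exact ⟨h1, fun h3 => h2 (Prod.ext h3.1 h3.2)⟩
      · rintro ⟨h1, h2⟩
        exact ⟨h1, fun h3 => h2 ⟨by rw [← h3], by rw [← h3]⟩⟩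
    rw [e]

end Pool.Agent.X7.Jsat
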