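import Pool.Agent.X7.Jsat.Count

/-!
Conversions between finite sets of pairs in `Fin n × Fin n` and sets of cells.
-/

namespace Pool.Agent.X7.Jsat

theorem chain_of_finset (C : Finset (ℕ × ℕ))
    (hC : ∀ x ∈ C, ∀ y ∈ C, x ≠ y → (x.1 < y.1 ∧ y.2 < x.2) ∨ (y.1 < x.1 ∧ x.2 < y.2)) :
    ∃ a b : ℕ → ℕ, IsCh C.card a b ∧ ∀ k, k < C.card → (a k, b k) ∈ C := by
  classical
  induction C using Finset.induction_on_max_value (f := fun x : ℕ × ℕ => x.1) with
  | empty => exact ⟨id, id, fun k hk => by simp at hk, fun k hk => by simp at hk⟩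
  | insert x s hx hmax ih =>
    obtain ⟨a, b, h1, h2⟩ := ih (fun y hy z hz => hC y (Finset.mem_insert_of_mem hy) z
      (Finset.mem_insert_of_mem hz))
    rw [Finset.card_insert_of_notMem hx]
    refine ⟨fun k => if k < s.card then a k else x.1, fun k => if k < s.card then b k else x.2,
      ?_, ?_⟩
    · intro k hk
      rcases Nat.lt_or_ge (k + 1) s.card with h | h
      · have h3 : k < s.card := by omega
        simp only [h, h3, if_true]
        exact h1 k h
      · have h3 : k < s.card := by omega
        have h4 : ¬ (k + 1 < s.card) := by omega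
        simp only [h3, h4, if_true, if_false]
        have h5 := h2 k h3
        have h6 := hmax _ h5
        have h7 := hC _ (Finset.mem_insert_of_mem h5) x (Finset.mem_insert_self _ _)
          (fun h8 => hx (h8 ▸ h5))
        simp only at h6 h7
        omega
    · intro k hk
      by_cases h : k < s.card
      · simp only [h, if_true]
        exact Finset.mem_insert_of_mem (h2 k h)
      · simp only [h, if_false]
        exact Finset.mem_insert_self _ _

/-- General statement about saturated members of a finite collection of finite sets. -/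
theorem sup_inf {α : Type*} [Fintype α] [DecidableEq α] (C : Finset α → Prop) (c : ℕ)
    (hempty : ¬ C ∅)
    (hcount : ∀ F, ¬ C F → (∀ x, x ∉ F → C (insert x F)) → F.card = c) :
    sInf {w | ∃ F, (¬ C F ∧ ∀ x, x ∉ F → C (insert x F)) ∧ F.card = w} = c ∧
    sSup {w | ∃ F, ¬ C F ∧ F.card = w} = c := by
  classical
  have hext : ∀ F, ¬ C F → ∃ F', F ⊆ F' ∧ ¬ C F' ∧ ∀ x, x ∉ F' → C (insert x F') := by
    intro F hF
    obtain ⟨F', hF'1, hF'2⟩ := Finset.exists_max_image
      ((Finset.univ : Finset (Finset α)).filter (fun G => F ⊆ G ∧ ¬ C G)) Finset.card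
      ⟨F, by simp [hF]⟩
    rw [Finset.mem_filter] at hF'1
    obtain ⟨-, h1, h2⟩ := hF'1
    refine ⟨F', h1, h2, fun x hx => ?_⟩
    by_contra hcon
    have h3 := hF'2 (insert x F') (by
      rw [Finset.mem_filter]
      exact ⟨Finset.mem_univ _, h1.trans (Finset.subset_insert _ _), hcon⟩)
    rw [Finset.card_insert_of_notMem hx] at h3
    omega
  obtain ⟨F0, -, h01, h02⟩ := hext ∅ hempty
  constructor
  · have : {w | ∃ F, (¬ C F ∧ ∀ x, x ∉ F → C (insert x F)) ∧ F.card = w} = {c} := by
      ext w
      rw [Set.mem_singleton_iff]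
      constructor
      · rintro ⟨F, ⟨h1, h2⟩, h3⟩
        rw [← h3]
        exact hcount F h1 h2
      · rintro rfl
        exact ⟨F0, ⟨h01, h02⟩, hcount F0 h01 h02⟩
    rw [this]
    exact csInf_singleton c
  · have : IsGreatest {w | ∃ F, ¬ C F ∧ F.card = w} c := by
      constructor
      · exact ⟨F0, h01, hcount F0 h01 h02⟩
      · rintro w ⟨F, h1, rfl⟩
        obtain ⟨F', h3, h4, h5⟩ := hext F h1
        rw [← hcount F' h4 h5]
        exact Finset.card_le_card h3
    exact this.csSup_eq

/-- Transfer of `main_count` along an injective map onto the box. -/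
theorem count_transfer {n e r : ℕ} (he : e ≤ 1) (hr : 1 ≤ r)
    (φ : Fin n × Fin n → ℕ × ℕ) (hφ : Function.Injective φ)
    (hb : ∀ x, (φ x).1 < n ∧ (φ x).2 < n)
    (hsurj : ∀ i j, i < n → j < n → ∃ x, φ x = (i, j))
    (F : Finset (Fin n × Fin n))
    (h1 : ¬ Con e (r + e) (F.image φ))
    (h2 : ∀ x, x ∉ F → Con e (r + e) ((insert x F).image φ)) :
    F.card = n ^ 2 - (n - r) ^ 2 := by
  classical
  rw [← Finset.card_image_of_injective F hφ]
  refine main_count he hr ?_ h1 ?_
  · intro x hx
    rw [Finset.mem_image] at hx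
    obtain ⟨y, -, rfl⟩ := hx
    exact hb y
  · intro i j hi hj hij
    obtain ⟨x, hx⟩ := hsurj i j hi hj
    have hxF : x ∉ F := by
      intro h
      apply hij
      rw [← hx]
      exact Finset.mem_image_of_mem _ h
    have := h2 x hxF
    rwa [Finset.image_insert, hx] at this

end Pool.Agent.X7.Jsat
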