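import Pool.Agent.X7.Jsat.Purity

/-!
Sizes of saturated sets of cells in the `n × n` grid.
-/

namespace Pool.Agent.X7.Jsat

/-- `A` contains a cell `x` and a chain of `t` cells in the box `[0, x.1 + e) × [0, x.2 + e)`. -/
def Con (e t : ℕ) (A : Finset (ℕ × ℕ)) : Prop :=
  ∃ x ∈ A, Has (fun i j => (i, j) ∈ A) (x.1 + e) (x.2 + e) t

theorem card_hook (n r : ℕ) :
    ((Finset.range n ×ˢ Finset.range n).filter (fun x : ℕ × ℕ => x.1 < r ∨ x.2 < r)).card =
      n ^ 2 - (n - r) ^ 2 := by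
  classical
  have h1 := Finset.card_filter_add_card_filter_not (s := Finset.range n ×ˢ Finset.range n)
    (fun x : ℕ × ℕ => x.1 < r ∨ x.2 < r)
  have h2 : (Finset.range n ×ˢ Finset.range n).filter (fun x : ℕ × ℕ => ¬ (x.1 < r ∨ x.2 < r)) =
      Finset.Ico r n ×ˢ Finset.Ico r n := by
    ext ⟨x, y⟩
    simp only [Finset.mem_filter, Finset.mem_product, Finset.mem_range, Finset.mem_Ico]
    omega
  rw [h2, Finset.card_product, Finset.card_product, Nat.card_Ico, Finset.card_range] at h1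
  rw [pow_two, pow_two]
  omega

theorem main_count {e r n : ℕ} (he : e ≤ 1) (hr : 1 ≤ r) {A : Finset (ℕ × ℕ)}
    (hA : ∀ x ∈ A, x.1 < n ∧ x.2 < n) (hfree : ¬ Con e (r + e) A)
    (hsat : ∀ i j, i < n → j < n → (i, j) ∉ A → Con e (r + e) (insert (i, j) A)) :
    A.card = n ^ 2 - (n - r) ^ 2 := by
  classical
  obtain ⟨m, hm⟩ : ∃ m, m + 1 = r + e := ⟨r + e - 1, by omega⟩
  rw [← hm] at hfree hsat
  set L : ℕ → ℕ → Prop := fun i j => ∃ x ∈ A, i < x.1 + e ∧ j < x.2 + e with hLdef
  have hL : ∀ i j i' j', i' ≤ i → j' ≤ j → L i j → L i' j' := by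
    rintro i j i' j' hi hj ⟨x, hx, h1, h2⟩
    exact ⟨x, hx, by omega, by omega⟩
  have hLb : ∀ i j, L i j → i + 1 < n + e ∧ j + 1 < n + e := by
    rintro i j ⟨x, hx, h1, h2⟩
    have := hA x hx
    omega
  have hM : ∀ i j, L i j → i < n ∧ j < n := by
    intro i j hij
    have := hLb i j hij
    omega
  set Lp : ℕ → ℕ → Prop := fun i j => ∀ i' j', i' < i + e → j' < j + e → L i' j' with hLpdef
  have hLLp : ∀ i j, L i j → Lp i j := by
    intro i j hij i' j' hi hj
    exact hL _ _ _ _ (by omega) (by omega) hij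
  have hALp : ∀ i j, (i, j) ∈ A → Lp i j := by
    intro i j hij i' j' hi hj
    exact ⟨(i, j), hij, hi, hj⟩
  -- chains in boxes inside L
  have hbox : ∀ p q, L p q → ¬ Has (fun i j => (i, j) ∈ A) (p + 1) (q + 1) (m + 1) := by
    rintro p q ⟨x, hx, h1, h2⟩ hh
    exact hfree ⟨x, hx, hh.mono (by omega) (by omega) le_rfl (fun _ _ _ _ h => h)⟩
  have claim1 : ∀ i j, i < n → j < n → (i, j) ∉ A → Lp i j →
      ∃ p q, L p q ∧ Has (fun x y => (x, y) ∈ insert (i, j) A) (p + 1) (q + 1) (m + 1) := by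
    intro i j hi hj hij hp
    obtain ⟨x, hx, hh⟩ := hsat i j hi hj hij
    have hle := hh.le
    refine ⟨x.1 + e - 1, x.2 + e - 1, ?_, ?_⟩
    · rw [Finset.mem_insert] at hx
      rcases hx with hx | hx
      · subst hx
        exact hp _ _ (by simp only at hle ⊢; omega) (by simp only at hle ⊢; omega)
      · exact ⟨x, hx, by omega, by omega⟩
    · exact hh.mono (by omega) (by omega) le_rfl (fun _ _ _ _ h => h)
  have claim2 : ∀ i j, i < n → j < n → (i, j) ∉ A → Lp i j → L i j := by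
    intro i j hi hj hij hp
    obtain ⟨p, q, hpq, hh⟩ := claim1 i j hi hj hij hp
    by_contra hcon
    refine hbox p q hpq (hh.mono le_rfl le_rfl le_rfl ?_)
    intro x y hx hy hxy
    rw [Finset.mem_insert] at hxy
    rcases hxy with hxy | hxy
    · exfalso
      rw [Prod.mk.injEq] at hxy
      obtain ⟨rfl, rfl⟩ := hxy
      exact hcon (hL _ _ _ _ (by omega) (by omega) hpq)
    · exact hxy
  have claim3 : ∀ i j, i < n → j < n → (i < r ∨ j < r) → Lp i j := by
    intro i j hi hj hij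
    by_contra hcon
    have hnA : (i, j) ∉ A := fun h => hcon (hALp i j h)
    obtain ⟨x, hx, hh⟩ := hsat i j hi hj hnA
    have hle := hh.le
    rw [Finset.mem_insert] at hx
    rcases hx with hx | hx
    · subst hx
      simp only at hle
      omega
    · refine hfree ⟨x, hx, hh.mono le_rfl le_rfl le_rfl ?_⟩
      intro a b ha hb hab
      rw [Finset.mem_insert] at hab
      rcases hab with hab | hab
      · exfalso
        rw [Prod.mk.injEq] at hab
        obtain ⟨rfl, rfl⟩ := hab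
        exact hcon (hLLp _ _ ⟨x, hx, ha, hb⟩)
      · exact hab
  set D : Finset (ℕ × ℕ) :=
    (Finset.range n ×ˢ Finset.range n).filter (fun x => L x.1 x.2 ∧ x ∉ A) with hDdef
  have hmemD : ∀ i j, (i, j) ∈ D ↔ L i j ∧ (i, j) ∉ A := by
    intro i j
    rw [hDdef, Finset.mem_filter, Finset.mem_product, Finset.mem_range, Finset.mem_range]
    constructor
    · rintro ⟨-, h⟩
      exact h
    · rintro ⟨h1, h2⟩
      exact ⟨hM _ _ h1, h1, h2⟩
  have hDL : ∀ x ∈ D, L x.1 x.2 := by
    rintro ⟨i, j⟩ hx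
    exact ((hmemD i j).1 hx).1
  have hval : Valid m L D := by
    intro p q hpq hh
    refine hbox p q hpq (hh.mono le_rfl le_rfl le_rfl ?_)
    intro x y hx hy hxy
    by_contra hcon
    exact hxy ((hmemD x y).2 ⟨hL _ _ _ _ (by omega) (by omega) hpq, hcon⟩)
  have hmin : ∀ D' ⊆ D, Valid m L D' → D' = D := by
    intro D' hD' hval'
    refine Finset.Subset.antisymm hD' ?_
    rintro ⟨i, j⟩ hx
    by_contra hx'
    obtain ⟨h1, h2⟩ := (hmemD i j).1 hx
    have h3 := hM _ _ h1
    obtain ⟨p, q, hpq, hh⟩ := claim1 i j h3.1 h3.2 h2 (hLLp _ _ h1)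
    refine hval' p q hpq (hh.mono le_rfl le_rfl le_rfl ?_)
    intro x y _ _ hxy hxD
    rw [Finset.mem_insert] at hxy
    rcases hxy with hxy | hxy
    · rw [Prod.mk.injEq] at hxy
      obtain ⟨rfl, rfl⟩ := hxy
      exact hx' hxD
    · exact ((hmemD x y).1 (hD' hxD)).2 hxy
  have hpure := purity (M := n) (m := m) hM hL hDL hval hmin
  -- the set of cells of the extended shape
  set P : Finset (ℕ × ℕ) :=
    (Finset.range n ×ˢ Finset.range n).filter (fun x => Lp x.1 x.2) with hPdef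
  have hPAD : P = A ∪ D := by
    ext ⟨i, j⟩
    rw [Finset.mem_union, hmemD, hPdef, Finset.mem_filter, Finset.mem_product, Finset.mem_range,
      Finset.mem_range]
    constructor
    · rintro ⟨⟨h1, h2⟩, h3⟩
      by_cases h4 : (i, j) ∈ A
      · exact Or.inl h4
      · exact Or.inr ⟨claim2 i j h1 h2 h4 h3, h4⟩
    · rintro (h | ⟨h, -⟩)
      · exact ⟨hA _ h, hALp i j h⟩
      · exact ⟨hM _ _ h, hLLp i j h⟩
  have hdisj : Disjoint A D := by
    rw [Finset.disjoint_left]
    rintro ⟨i, j⟩ h1 h2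
    exact ((hmemD i j).1 h2).2 h1
  have hcard1 : P.card = A.card + D.card := by
    rw [hPAD, Finset.card_union_of_disjoint hdisj]
  have hcard2 : (D0 n m L).card = (P.filter (fun x => ¬ (x.1 < r ∨ x.2 < r))).card := by
    refine Finset.card_nbij' (fun x => (x.1 + r, x.2 + 1 - e)) (fun x => (x.1 - r, x.2 + e - 1))
      ?_ ?_ ?_ ?_
    · rintro ⟨i, j⟩ hx
      unfold D0 at hx
      rw [Finset.mem_coe, Finset.mem_filter] at hx
      obtain ⟨-, h1, h2⟩ := hx
      simp only at h1 h2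
      have h3 := hLb _ _ h2
      rw [Finset.mem_coe, Finset.mem_filter, hPdef, Finset.mem_filter, Finset.mem_product,
        Finset.mem_range, Finset.mem_range]
      simp only
      refine ⟨⟨⟨by omega, by omega⟩, ?_⟩, by omega⟩
      intro i' j' hi' hj'
      exact hL _ _ _ _ (by omega) (by omega) h2
    · rintro ⟨i, j⟩ hx
      rw [Finset.mem_coe, Finset.mem_filter, hPdef, Finset.mem_filter, Finset.mem_product,
        Finset.mem_range, Finset.mem_range] at hx
      simp only at hx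
      obtain ⟨⟨⟨h1, h2⟩, h3⟩, h4⟩ := hx
      have h5 : L (i - r + m) (j + e - 1) := h3 _ _ (by omega) (by omega)
      have h6 := hM _ _ h5
      unfold D0
      rw [Finset.mem_coe, Finset.mem_filter, Finset.mem_product, Finset.mem_range,
        Finset.mem_range]
      simp only
      exact ⟨⟨by omega, h6.2⟩, by omega, h5⟩
    · rintro ⟨i, j⟩ hx
      unfold D0 at hx
      rw [Finset.mem_coe, Finset.mem_filter] at hx
      obtain ⟨-, h1, h2⟩ := hx
      simp only at h1 h2
      simp only [Prod.mk.injEq]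
      omega
    · rintro ⟨i, j⟩ hx
      rw [Finset.mem_coe, Finset.mem_filter] at hx
      obtain ⟨-, h4⟩ := hx
      simp only at h4
      simp only [Prod.mk.injEq]
      omega
  have hcard3 := Finset.card_filter_add_card_filter_not (s := P)
    (fun x : ℕ × ℕ => x.1 < r ∨ x.2 < r)
  have hcard4 : P.filter (fun x : ℕ × ℕ => x.1 < r ∨ x.2 < r) =
      (Finset.range n ×ˢ Finset.range n).filter (fun x : ℕ × ℕ => x.1 < r ∨ x.2 < r) := by
    ext ⟨i, j⟩
    rw [hPdef]
    simp only [Finset.mem_filter, Finset.mem_product, Finset.mem_range]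
    constructor
    · rintro ⟨⟨h1, -⟩, h2⟩
      exact ⟨h1, h2⟩
    · rintro ⟨h1, h2⟩
      exact ⟨⟨h1, claim3 i j h1.1 h1.2 h2⟩, h2⟩
  rw [← card_hook n r, ← hcard4]
  omega

end Pool.Agent.X7.Jsat
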