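import Pool.Agent.X7.Jsat.Subword

/-!
All minimal sets of cells of a Ferrers shape that meet every chain of `m+1` cells spanning a box
inside the shape have the same number of cells.
-/

namespace Pool.Agent.X7.Jsat

theorem exists_list (D : Finset (ℕ × ℕ)) :
    ∃ l : List (ℕ × ℕ), l.Pairwise before ∧ ∀ x, x ∈ l ↔ x ∈ D := by
  classical
  induction D using Finset.induction_on_max_value
      (f := fun x : ℕ × ℕ => toLex (x.1, OrderDual.toDual x.2)) with
  | empty => exact ⟨[], List.Pairwise.nil, by simp⟩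
  | insert a s ha hmax ih =>
    obtain ⟨l, h1, h2⟩ := ih
    refine ⟨l ++ [a], ?_, ?_⟩
    · rw [List.pairwise_append]
      refine ⟨h1, List.pairwise_singleton _ _, ?_⟩
      intro x hx y hy
      rw [List.mem_singleton] at hy
      subst hy
      have hxs := (h2 x).1 hx
      have hle := hmax x hxs
      rw [Prod.Lex.toLex_le_toLex] at hle
      simp only [OrderDual.toDual_le_toDual] at hle
      have hne : x ≠ y := fun h => ha (h ▸ hxs)
      rcases hle with h | ⟨h, h'⟩
      · exact Or.inl h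
      · refine Or.inr ⟨h, lt_of_le_of_ne h' ?_⟩
        intro h3
        exact hne (Prod.ext h h3.symm)
    · intro x
      rw [List.mem_append, List.mem_singleton, h2, Finset.mem_insert]
      tauto

theorem nodup_of_before {l : List (ℕ × ℕ)} (h : l.Pairwise before) : l.Nodup := by
  refine h.imp ?_
  rintro x y hxy rfl
  unfold before at hxy
  omega

/-- `D` meets every chain of `m+1` cells spanning a box inside `L`. -/
def Valid (m : ℕ) (L : ℕ → ℕ → Prop) (D : Finset (ℕ × ℕ)) : Prop :=
  ∀ p q, L p q → ¬ Has (fun x y => (x, y) ∉ D) (p + 1) (q + 1) (m + 1)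

theorem transform {S L : ℕ → ℕ → Prop} {m p q t : ℕ}
    (hval : ∀ p q, L p q → ¬ Has S (p + 1) (q + 1) (m + 1)) (h : Has S p q t) :
    Has (fun x y => y < m ∨ ¬ L (x + m) y) p q t := by
  have hle := h.le
  obtain ⟨a, b, h1, h2⟩ := h
  rcases Nat.lt_or_ge m t with hm | hm
  · have e : t = (t - m) + m := by omega
    rw [e]
    obtain ⟨-, hlast, -⟩ := h2 (t - 1) (by omega)
    have hg : ∀ k, k + m < t → m ≤ a (k + m) ∧ m ≤ b k ∧ a (k + m) ≤ a (t - 1) := by
      intro k hk
      have h3 := h1.gap 0 (k + m) (by omega)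
      have h4 := h1.gap k m (by omega)
      have h5 := h1.gap (k + m) (t - 1 - (k + m)) (by omega)
      have e5 : k + m + (t - 1 - (k + m)) = t - 1 := by omega
      rw [e5] at h5
      rw [Nat.zero_add] at h3
      omega
    have hcell : ∀ k, k + m < t → ¬ L (a (k + m)) (b k) := by
      intro k hk hL
      refine hval _ _ hL ⟨fun x => a (k + x), fun x => b (k + x), ?_, ?_⟩
      · intro x hx
        exact h1 (k + x) (by omega)
      · intro x hx
        obtain ⟨h3, -, -⟩ := h2 (k + x) (by omega)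
        have h4 := h1.gap k x (by omega)
        have h5 := h1.gap (k + x) (m - x) (by omega)
        have e5 : k + x + (m - x) = k + m := by omega
        rw [e5] at h5
        exact ⟨h3, by show a (k + x) < _; omega, by show b (k + x) < _; omega⟩
    have h0 := hg 0 (by omega)
    apply glue (a := fun k => a (k + m) - m) (b := b) (r0 := a (t - 1) - m + 1)
    · intro k hk
      have h3 := h1 (k + m) (by omega)
      have h4 := h1 k (by omega)
      have h5 := hg k (by omega)
      have e6 : k + 1 + m = k + m + 1 := by ring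
      simp only [e6]
      omega
    · intro k hk
      have h3 := hg k (by omega)
      have h4 := hcell k (by omega)
      obtain ⟨-, -, h5⟩ := h2 k (by omega)
      obtain ⟨-, h6, -⟩ := h2 (k + m) (by omega)
      refine ⟨Or.inr ?_, by omega, h5⟩
      have e7 : a (k + m) - m + m = a (k + m) := by omega
      simp only [e7]
      exact h4
    · intro k hk
      have h3 := hg k (by omega)
      omega
    · intro k hk
      exact (hg k (by omega)).2.1
    · intro _
      have h3 := hg 0 (by omega)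
      omega
    · omega
    · intro e' he'
      exact Or.inl (by omega)
  · have := @glue (fun x y => y < m ∨ ¬ L (x + m) y) p q id id 0 t 0
      (fun k hk => by omega) (fun k hk => by omega) (fun k hk => by omega)
      (fun k hk => by omega) (fun _ => by omega) (by omega) (fun e he => Or.inl (by omega))
    simpa using this

/-- The standard transversal. -/
def D0 (M m : ℕ) (L : ℕ → ℕ → Prop) [DecidableRel L] : Finset (ℕ × ℕ) :=
  (Finset.range M ×ˢ Finset.range M).filter (fun x => m ≤ x.2 ∧ L (x.1 + m) x.2)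

theorem not_mem_D0 {M m : ℕ} {L : ℕ → ℕ → Prop} [DecidableRel L]
    (hM : ∀ i j, L i j → i < M ∧ j < M) (x y : ℕ) :
    (x, y) ∉ D0 M m L ↔ (y < m ∨ ¬ L (x + m) y) := by
  unfold D0
  rw [Finset.mem_filter, Finset.mem_product, Finset.mem_range, Finset.mem_range]
  constructor
  · intro h
    by_contra hcon
    push Not at hcon
    obtain ⟨h1, h2⟩ := hcon
    have h3 := hM _ _ h2
    exact h ⟨⟨by simp only; omega, by simp only; omega⟩, h1, h2⟩
  · rintro h ⟨-, h1, h2⟩
    rcases h with h | h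
    · simp only at h1
      omega
    · exact h h2

theorem valid_D0 {M m : ℕ} {L : ℕ → ℕ → Prop} [DecidableRel L]
    (hM : ∀ i j, L i j → i < M ∧ j < M)
    (hL : ∀ i j i' j', i' ≤ i → j' ≤ j → L i j → L i' j') : Valid m L (D0 M m L) := by
  rintro p q hpq ⟨a, b, h1, h2⟩
  obtain ⟨h3, h4, h5⟩ := h2 0 (by omega)
  obtain ⟨-, h6, -⟩ := h2 m (by omega)
  have h7 := h1.gap 0 m (by omega)
  rw [Nat.zero_add] at h7
  rw [not_mem_D0 hM] at h3
  rcases h3 with h3 | h3
  · omega
  · exact h3 (hL p q _ _ (by omega) (by omega) hpq)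

theorem exists_sub {M m N : ℕ} {L : ℕ → ℕ → Prop} [DecidableRel L]
    (hM : ∀ i j, L i j → i < M ∧ j < M)
    (hL : ∀ i j i' j', i' ≤ i → j' ≤ j → L i j → L i' j')
    (hN : 2 * M ≤ N) {l0 : List (ℕ × ℕ)} (hl0 : l0.Pairwise before)
    (hl0' : ∀ x, x ∈ l0 ↔ x ∈ D0 M m L)
    {D : Finset (ℕ × ℕ)} (hD : ∀ x ∈ D, L x.1 x.2) (hval : Valid m L D) :
    ∃ D' ⊆ D, Valid m L D' ∧ D'.card = inv N (dem l0) := by
  classical
  obtain ⟨l, hl, hl'⟩ := exists_list D
  have hrk : ∀ p q, rk (dem l) p q ≤ rk (dem l0) p q := by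
    intro p q
    have h1 : Has (fun x y => (x, y) ∉ l) p q (rk (dem l) p q) :=
      (has_dem l hl p q _).2 le_rfl
    have h2 : Has (fun x y => y < m ∨ ¬ L (x + m) y) p q (rk (dem l) p q) := by
      refine transform ?_ h1
      intro p' q' hpq hh
      exact hval p' q' hpq (hh.mono le_rfl le_rfl le_rfl
        (fun x y _ _ hxy => fun h3 => hxy ((hl' _).2 h3)))
    rw [← has_dem l0 hl0]
    refine h2.mono le_rfl le_rfl le_rfl (fun x y _ _ hxy => ?_)
    intro h3
    exact (not_mem_D0 hM x y).2 hxy ((hl0' _).1 h3)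
  obtain ⟨l', h1, h2, h3⟩ := subword N l
    (fun c hc => by
      have h4 := hM _ _ (hD c ((hl' c).1 hc))
      omega) (dem l0) (dem_injective l0) hrk
  have hl'' : l'.Pairwise before := hl.sublist h1
  refine ⟨l'.toFinset, ?_, ?_, ?_⟩
  · intro x hx
    rw [List.mem_toFinset] at hx
    exact (hl' x).1 (h1.subset hx)
  · intro p q hpq hh
    have h4 : Has (fun x y => (x, y) ∉ l') (p + 1) (q + 1) (m + 1) :=
      hh.mono le_rfl le_rfl le_rfl (fun x y _ _ hxy => fun h5 => hxy (by simpa using h5))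
    rw [has_dem l' hl'', h2, ← has_dem l0 hl0] at h4
    exact valid_D0 hM hL p q hpq (h4.mono le_rfl le_rfl le_rfl
      (fun x y _ _ hxy => fun h5 => hxy ((hl0' _).2 h5)))
  · rw [List.toFinset_card_of_nodup (nodup_of_before hl''), h3]

theorem minimal_D0 {M m : ℕ} {L : ℕ → ℕ → Prop} [DecidableRel L]
    (hM : ∀ i j, L i j → i < M ∧ j < M)
    {D' : Finset (ℕ × ℕ)} (hD' : D' ⊆ D0 M m L) (hval : Valid m L D') : D' = D0 M m L := by
  refine Finset.Subset.antisymm hD' ?_
  rintro ⟨i, j⟩ hx
  by_contra hx'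
  have hx2 := hx
  unfold D0 at hx
  rw [Finset.mem_filter] at hx
  obtain ⟨-, h1, h2⟩ := hx
  simp only at h1 h2
  refine hval _ _ h2 ?_
  have := @glue (fun x y => (x, y) ∉ D') (i + m + 1) (j + 1) (fun _ => i) (fun _ => j) 1 m (i + 1)
    (fun k hk => by omega) (fun k hk => ⟨hx', by omega, by omega⟩)
    (fun k hk => by omega)
    (fun k hk => h1) (fun _ => by omega) (by omega)
    (fun e he => fun h3 => (not_mem_D0 hM _ _).2 (Or.inl (by omega)) (hD' h3))
  rw [Nat.add_comm 1 m] at this
  exact this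

/-- **Purity.** -/
theorem purity {M m : ℕ} {L : ℕ → ℕ → Prop} [DecidableRel L]
    (hM : ∀ i j, L i j → i < M ∧ j < M)
    (hL : ∀ i j i' j', i' ≤ i → j' ≤ j → L i j → L i' j')
    {D : Finset (ℕ × ℕ)} (hD : ∀ x ∈ D, L x.1 x.2) (hval : Valid m L D)
    (hmin : ∀ D' ⊆ D, Valid m L D' → D' = D) : D.card = (D0 M m L).card := by
  obtain ⟨l0, hl0, hl0'⟩ := exists_list (D0 M m L)
  obtain ⟨D1, h1, h2, h3⟩ := exists_sub (N := 2 * M) hM hL le_rfl hl0 hl0' hD hval
  have h4 := hmin D1 h1 h2
  have hD0 : ∀ x ∈ D0 M m L, L x.1 x.2 := by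
    intro x hx
    unfold D0 at hx
    rw [Finset.mem_filter] at hx
    exact hL _ _ _ _ (by omega) le_rfl hx.2.2
  obtain ⟨D2, h5, h6, h7⟩ := exists_sub (N := 2 * M) hM hL le_rfl hl0 hl0' hD0 (valid_D0 hM hL)
  have h8 := minimal_D0 hM h5 h6
  rw [← h4, h3, ← h7, h8]

end Pool.Agent.X7.Jsat
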