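import Pool.Agent.X7.Jsat.Chain

/-!
The subword property for Demazure products, in terms of rank functions.
-/

namespace Pool.Agent.X7.Jsat

/-- Number of inversions on `[0,N)`. -/
def inv (N : ℕ) (w : ℕ → ℕ) : ℕ :=
  ((Finset.range N ×ˢ Finset.range N).filter (fun x => x.1 < x.2 ∧ w x.2 < w x.1)).card

theorem inv_id (N : ℕ) : inv N id = 0 := by
  unfold inv
  rw [Finset.card_eq_zero, Finset.filter_eq_empty_iff]
  rintro ⟨x, y⟩ -
  simp only [id]
  omega

theorem inv_swap {N : ℕ} {w : ℕ → ℕ} {i : ℕ} (hi : i + 1 < N) (h : w (i + 1) < w i) :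
    inv N (w ∘ Equiv.swap i (i + 1)) + 1 = inv N w := by
  classical
  unfold inv
  set A := (Finset.range N ×ˢ Finset.range N).filter (fun x => x.1 < x.2 ∧ w x.2 < w x.1) with hA
  set B := (Finset.range N ×ˢ Finset.range N).filter
    (fun x => x.1 < x.2 ∧ (w ∘ Equiv.swap i (i + 1)) x.2 < (w ∘ Equiv.swap i (i + 1)) x.1) with hB
  have hmem : (i, i + 1) ∈ A := by
    rw [hA, Finset.mem_filter, Finset.mem_product, Finset.mem_range, Finset.mem_range]
    refine ⟨⟨by omega, by omega⟩, by simp, h⟩
  have hcard : B.card = (A.erase (i, i + 1)).card := by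
    refine Finset.card_nbij' (fun x => (Equiv.swap i (i + 1) x.1, Equiv.swap i (i + 1) x.2))
      (fun x => (Equiv.swap i (i + 1) x.1, Equiv.swap i (i + 1) x.2)) ?_ ?_ ?_ ?_
    · rintro ⟨x, y⟩ hx
      rw [hB] at hx
      simp only [Finset.coe_filter, Finset.mem_product, Finset.mem_range, Function.comp,
        Set.mem_ofPred_eq] at hx
      obtain ⟨⟨h1, h2⟩, h3, h4⟩ := hx
      rw [hA]
      simp only [Finset.coe_erase, Finset.coe_filter, Finset.mem_product, Finset.mem_range,
        Set.mem_sdiff, Set.mem_ofPred_eq, Set.mem_singleton_iff, Prod.mk.injEq, not_and]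
      have hne : ¬ (x = i ∧ y = i + 1) := by
        rintro ⟨rfl, rfl⟩
        simp only [Equiv.swap_apply_left, Equiv.swap_apply_right] at h4
        omega
      refine ⟨⟨⟨?_, ?_⟩, ?_, h4⟩, ?_⟩
      · rw [Equiv.swap_apply_def]; split_ifs <;> omega
      · rw [Equiv.swap_apply_def]; split_ifs <;> omega
      · rw [Equiv.swap_apply_def, Equiv.swap_apply_def]; split_ifs <;> omega
      · rw [Equiv.swap_apply_def, Equiv.swap_apply_def]; split_ifs <;> omega
    · rintro ⟨x, y⟩ hx
      rw [hA] at hx
      simp only [Finset.coe_erase, Finset.coe_filter, Finset.mem_product, Finset.mem_range,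
        Set.mem_sdiff, Set.mem_ofPred_eq, Set.mem_singleton_iff, Prod.mk.injEq] at hx
      obtain ⟨⟨⟨h1, h2⟩, h3, h4⟩, h5⟩ := hx
      rw [hB]
      simp only [Finset.coe_filter, Finset.mem_product, Finset.mem_range, Function.comp,
        Set.mem_ofPred_eq, Equiv.swap_apply_self]
      refine ⟨⟨?_, ?_⟩, ?_, h4⟩
      · rw [Equiv.swap_apply_def]; split_ifs <;> omega
      · rw [Equiv.swap_apply_def]; split_ifs <;> omega
      · rw [Equiv.swap_apply_def, Equiv.swap_apply_def]; split_ifs <;> omega
    · rintro ⟨x, y⟩ _
      simp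
    · rintro ⟨x, y⟩ _
      simp
  rw [hcard, Finset.card_erase_of_mem hmem]
  have : 0 < A.card := Finset.card_pos.2 ⟨_, hmem⟩
  omega

theorem eq_id_of_rk {w : ℕ → ℕ} (hw : Function.Injective w)
    (h : ∀ p q, rk id p q ≤ rk w p q) : w = id := by
  have key : ∀ p, w p = p := by
    intro p
    induction p using Nat.strong_induction_on with
    | _ p ih =>
      have h1 := h (p + 1) (p + 1)
      rw [rk_id, rk_succ, min_self] at h1
      have h2 : rk w p (p + 1) ≤ p := by
        unfold rk
        exact (Finset.card_filter_le _ _).trans (by simp)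
      have h3 : w p < p + 1 := by
        by_contra hcon
        rw [if_neg hcon] at h1
        omega
      rcases Nat.lt_or_ge (w p) p with h4 | h4
      · have h5 := ih _ h4
        have h6 := hw h5
        omega
      · omega
  funext p
  exact key p

theorem step_eq_of_lt {u : ℕ → ℕ} {i : ℕ} (h : u i < u (i + 1)) :
    step u i = u ∘ Equiv.swap i (i + 1) := by
  unfold step
  rw [if_pos h]

theorem subword (N : ℕ) (l : List (ℕ × ℕ)) (hN : ∀ c ∈ l, c.1 + c.2 + 1 < N) :
    ∀ (w : ℕ → ℕ), Function.Injective w → (∀ p q, rk (dem l) p q ≤ rk w p q) →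
      ∃ l' : List (ℕ × ℕ), l'.Sublist l ∧ dem l' = w ∧ l'.length = inv N w := by
  induction l using List.reverseRecOn with
  | nil =>
    intro w hw h
    have h1 := eq_id_of_rk hw h
    subst h1
    exact ⟨[], List.Sublist.refl _, rfl, by rw [inv_id]; rfl⟩
  | append_singleton l c ih =>
    intro w hw h
    have hN' : ∀ c ∈ l, c.1 + c.2 + 1 < N := fun d hd => hN d (by simp [hd])
    have hc : c.1 + c.2 + 1 < N := hN c (by simp)
    rw [dem_append] at h
    set i := c.1 + c.2 with hi
    have hne : w i ≠ w (i + 1) := fun hcon => by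
      have := hw hcon
      omega
    have hrow : ∀ q, rk (dem l) (i + 1) q ≤ min (rk w i q + 1) (rk w (i + 2) q) := by
      intro q
      have h1 := h i q
      have h2 := h (i + 2) q
      rw [rk_step_ne _ _ _ _ (by omega)] at h1 h2
      have h3 := rk_succ (dem l) i q
      have h4 : rk (dem l) (i + 2) q = rk (dem l) (i + 1) q +
        if dem l (i + 1) < q then 1 else 0 := rk_succ (dem l) (i + 1) q
      split_ifs at h3 h4 <;> omega
    rcases Nat.lt_or_gt_of_ne hne with hlt | hgt
    · have h' : ∀ p q, rk (dem l) p q ≤ rk w p q := by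
        intro p q
        by_cases hp : p = i + 1
        · subst hp
          have h1 := hrow q
          have h3 := rk_succ w i q
          have h4 : rk w (i + 2) q = rk w (i + 1) q + if w (i + 1) < q then 1 else 0 :=
            rk_succ w (i + 1) q
          split_ifs at h3 h4 <;> omega
        · have h1 := h p q
          rwa [rk_step_ne _ _ _ _ hp] at h1
      obtain ⟨l', h1, h2, h3⟩ := ih hN' w hw h'
      exact ⟨l', h1.trans (List.sublist_append_left _ _), h2, h3⟩
    · have hw' : Function.Injective (w ∘ Equiv.swap i (i + 1)) :=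
        hw.comp (Equiv.injective _)
      have h' : ∀ p q, rk (dem l) p q ≤ rk (w ∘ Equiv.swap i (i + 1)) p q := by
        intro p q
        by_cases hp : p = i + 1
        · subst hp
          have h1 := hrow q
          rw [rk_swap_mid]
          have h3 := rk_succ w i q
          have h4 : rk w (i + 2) q = rk w (i + 1) q + if w (i + 1) < q then 1 else 0 :=
            rk_succ w (i + 1) q
          split_ifs at h3 h4 ⊢ <;> omega
        · have h1 := h p q
          rw [rk_step_ne _ _ _ _ hp] at h1
          rwa [rk_swap_ne _ _ _ _ hp]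
      obtain ⟨l', h1, h2, h3⟩ := ih hN' _ hw' h'
      refine ⟨l' ++ [c], List.Sublist.append h1 (List.Sublist.refl _), ?_, ?_⟩
      · rw [dem_append, h2]
        have h5 : (w ∘ Equiv.swap i (i + 1)) i < (w ∘ Equiv.swap i (i + 1)) (i + 1) := by
          simpa [Function.comp] using hgt
        rw [← hi, step_eq_of_lt h5]
        funext x
        simp [Function.comp]
      · rw [List.length_append, h3, List.length_singleton, inv_swap hc hgt]

theorem dem_injective (l : List (ℕ × ℕ)) : Function.Injective (dem l) := by
  induction l using List.reverseRecOn with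
  | nil => exact Function.injective_id
  | append_singleton l c ih =>
    rw [dem_append]
    unfold step
    split_ifs
    · exact ih.comp (Equiv.injective _)
    · exact ih

end Pool.Agent.X7.Jsat
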